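import Pool.Agent.Helper52.EK.Defs
set_option autoImplicit false
open Complex MeasureTheory Metric Set
open scoped Real ComplexConjugate

/-! Project EK: the field function `Gc` is admissible. -/

namespace Pool.Agent.Helper79.EK

open Pool.Agent.Helper52.EK

theorem norm_Gc (m : ℂ) : ‖Gc m‖ = ‖m‖ / max 1 (‖m‖ ^ 2) := by
  have h : (0:ℝ) < max 1 (‖m‖ ^ 2) := lt_of_lt_of_le one_pos (le_max_left _ _)
  unfold Gc
  rw [norm_div, Complex.norm_real, Real.norm_of_nonneg h.le]

theorem norm_Gc_le (m : ℂ) : ‖Gc m‖ ≤ 1 := by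
  have h : (0:ℝ) < max 1 (‖m‖ ^ 2) := lt_of_lt_of_le one_pos (le_max_left _ _)
  rw [norm_Gc, div_le_one h]
  rcases le_total ‖m‖ 1 with h1 | h1
  · exact h1.trans (le_max_left _ _)
  · exact le_trans (by nlinarith) (le_max_right _ _)

theorem sq_norm_sub_div (m m' : ℂ) {p q : ℝ} (hp : 0 < p) (hq : 0 < q) :
    ‖m / (p : ℂ) - m' / (q : ℂ)‖ ^ 2 =
      ‖m‖ ^ 2 / p ^ 2 + ‖m'‖ ^ 2 / q ^ 2 - 2 * (m.re * m'.re + m.im * m'.im) / (p * q) := by
  rw [Complex.sq_norm, Complex.sq_norm, Complex.sq_norm, normSq_apply, normSq_apply, normSq_apply]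
  simp only [sub_re, sub_im, div_ofReal_re, div_ofReal_im]
  field_simp
  ring

theorem Gc_sub_le (m m' : ℂ) : ‖Gc m - Gc m'‖ ≤ ‖m - m'‖ := by
  have hp : (0:ℝ) < max 1 (‖m‖ ^ 2) := lt_of_lt_of_le one_pos (le_max_left _ _)
  have hq : (0:ℝ) < max 1 (‖m'‖ ^ 2) := lt_of_lt_of_le one_pos (le_max_left _ _)
  have h1 := sq_norm_sub_div m m' hp hq
  have h2 := sq_norm_sub_div m m' (p := 1) (q := 1) one_pos one_pos
  simp only [ofReal_one, div_one, one_pow, mul_one] at h2
  refine le_of_sq_le_sq ?_ (norm_nonneg _)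
  unfold Gc
  rw [h1, h2]
  have hA : 0 ≤ ‖m‖ ^ 2 := sq_nonneg _
  have hB : 0 ≤ ‖m'‖ ^ 2 := sq_nonneg _
  have hR : 0 ≤ ‖m‖ ^ 2 + ‖m'‖ ^ 2 - 2 * (m.re * m'.re + m.im * m'.im) := by
    rw [← h2]
    exact sq_nonneg _
  generalize ‖m‖ ^ 2 = A at *
  generalize ‖m'‖ ^ 2 = B at *
  generalize m.re * m'.re + m.im * m'.im = R at *
  rcases le_total A 1 with a1 | a1 <;> rcases le_total B 1 with b1 | b1
  · rw [max_eq_left a1, max_eq_left b1]
    simp
  · rw [max_eq_left a1, max_eq_right b1]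
    have hB0 : 0 < B := by linarith
    have h3 : A / 1 ^ 2 + B / B ^ 2 - 2 * R / (1 * B) = A + (1 - 2 * R) / B := by
      field_simp
      ring
    rw [h3]
    have h4 : (1 - 2 * R) / B ≤ B - 2 * R := by
      rw [div_le_iff₀ hB0]
      nlinarith
    linarith
  · rw [max_eq_right a1, max_eq_left b1]
    have hA0 : 0 < A := by linarith
    have h3 : A / A ^ 2 + B / 1 ^ 2 - 2 * R / (A * 1) = B + (1 - 2 * R) / A := by
      field_simp
      ring
    rw [h3]
    have h4 : (1 - 2 * R) / A ≤ A - 2 * R := by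
      rw [div_le_iff₀ hA0]
      nlinarith
    linarith
  · rw [max_eq_right a1, max_eq_right b1]
    have hA0 : 0 < A := by linarith
    have hB0 : 0 < B := by linarith
    have h3 : A / A ^ 2 + B / B ^ 2 - 2 * R / (A * B) = (A + B - 2 * R) / (A * B) := by
      field_simp
      ring
    rw [h3]
    refine div_le_self hR ?_
    nlinarith

theorem Gc_lip : GLip Gc 1 where
  le_one := norm_Gc_le
  lip := fun m m' => by rw [one_mul]; exact Gc_sub_le m m'
  rot := fun u m hu => by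
    have h : Gc (u * m) - Gc m = (u - 1) * Gc m := by
      unfold Gc
      rw [norm_mul, hu, one_mul]
      ring
    rw [h, norm_mul, one_mul]
    exact mul_le_of_le_one_right (norm_nonneg _) (norm_Gc_le m)

end Pool.Agent.Helper79.EK
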